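import Pool.Agent.W290.LG.Stm

/-!
# Project LG, part B: a solvable system of wires gives a plane configuration in general position,
over every field of characteristic zero (port of Pool.Agent.H881R2.Mat.GenBase, Generic, Generic2,
Generic3, Generic4)
-/

set_option autoImplicit false

namespace Pool.Agent.W364.LG

open Pool.Agent Pool.Agent.NPC Pool.Agent.H881R2.Mat Pool.Agent.W290.LG

namespace Gen

open Polynomial

/-! ### from GenBase -/

section GenBase

/-! ### dependence as a proposition -/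

/-- propositional form of `dep` -/
def Dep (G : List Gad) (a b c : Lab) : Prop :=
  (a = b ∨ a = c ∨ b = c) ∨ (onP a = true ∧ onP b = true ∧ onP c = true) ∨
  (onQ a = true ∧ onQ b = true ∧ onQ c = true) ∨ (onR a = true ∧ onR b = true ∧ onR c = true) ∨
  (onS a = true ∧ onS b = true ∧ onS c = true) ∨ ∃ L ∈ lines G, a ∈ L ∧ b ∈ L ∧ c ∈ L

theorem dep_iff (G : List Gad) (a b c : Lab) : dep G a b c = true ↔ Dep G a b c := by
  unfold dep Dep
  simp only [Bool.or_eq_true, Bool.and_eq_true, decide_eq_true_eq, List.any_eq_true]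

theorem Dep.swap12 {G : List Gad} {a b c : Lab} (h : Dep G a b c) : Dep G b a c := by
  rcases h with (h | h | h) | ⟨h1, h2, h3⟩ | ⟨h1, h2, h3⟩ | ⟨h1, h2, h3⟩ | ⟨h1, h2, h3⟩ |
    ⟨L, hL, h1, h2, h3⟩
  · exact Or.inl (Or.inl h.symm)
  · exact Or.inl (Or.inr (Or.inr h))
  · exact Or.inl (Or.inr (Or.inl h))
  · exact Or.inr (Or.inl ⟨h2, h1, h3⟩)
  · exact Or.inr (Or.inr (Or.inl ⟨h2, h1, h3⟩))
  · exact Or.inr (Or.inr (Or.inr (Or.inl ⟨h2, h1, h3⟩)))
  · exact Or.inr (Or.inr (Or.inr (Or.inr (Or.inl ⟨h2, h1, h3⟩))))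
  · exact Or.inr (Or.inr (Or.inr (Or.inr (Or.inr ⟨L, hL, h2, h1, h3⟩))))

theorem Dep.swap23 {G : List Gad} {a b c : Lab} (h : Dep G a b c) : Dep G a c b := by
  rcases h with (h | h | h) | ⟨h1, h2, h3⟩ | ⟨h1, h2, h3⟩ | ⟨h1, h2, h3⟩ | ⟨h1, h2, h3⟩ |
    ⟨L, hL, h1, h2, h3⟩
  · exact Or.inl (Or.inr (Or.inl h))
  · exact Or.inl (Or.inl h)
  · exact Or.inl (Or.inr (Or.inr h.symm))
  · exact Or.inr (Or.inl ⟨h1, h3, h2⟩)
  · exact Or.inr (Or.inr (Or.inl ⟨h1, h3, h2⟩))
  · exact Or.inr (Or.inr (Or.inr (Or.inl ⟨h1, h3, h2⟩)))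
  · exact Or.inr (Or.inr (Or.inr (Or.inr (Or.inl ⟨h1, h3, h2⟩))))
  · exact Or.inr (Or.inr (Or.inr (Or.inr (Or.inr ⟨L, hL, h1, h3, h2⟩))))

/-! ### determinants -/

/-- determinant over a commutative ring -/
def dt {R : Type} [CommRing R] (a b c : Fin 3 → R) : R :=
  a 0 * (b 1 * c 2 - b 2 * c 1) - a 1 * (b 0 * c 2 - b 2 * c 0) + a 2 * (b 0 * c 1 - b 1 * c 0)

theorem dt_swap12 {R : Type} [CommRing R] (a b c : Fin 3 → R) : dt b a c = - dt a b c := by
  unfold dt; ring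

theorem dt_swap23 {R : Type} [CommRing R] (a b c : Fin 3 → R) : dt a c b = - dt a b c := by
  unfold dt; ring

theorem dt_mem3 {R : Type} [CommRing R] (v : Lab → Fin 3 → R) {a b c : Lab}
    (h : dt (v a) (v b) (v c) = 0) {l₁ l₂ l₃ : Lab} (h₁ : l₁ ∈ [a, b, c]) (h₂ : l₂ ∈ [a, b, c])
    (h₃ : l₃ ∈ [a, b, c]) : dt (v l₁) (v l₂) (v l₃) = 0 := by
  simp only [List.mem_cons, List.not_mem_nil, or_false] at h₁ h₂ h₃
  unfold dt at h ⊢
  rcases h₁ with rfl | rfl | rfl <;> rcases h₂ with rfl | rfl | rfl <;>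
    rcases h₃ with rfl | rfl | rfl <;>
    first
      | ring1
      | linear_combination h
      | linear_combination -h

/-- types of the points -/
inductive Ty : Type
  | P | Q | R | S | Y
  deriving DecidableEq

/-- order of the types -/
def Ty.rk : Ty → ℕ
  | .P => 0 | .Q => 1 | .R => 2 | .S => 3 | .Y => 4

/-- the vector with type `t` and parameter `m` -/
def vecT {R : Type} [CommRing R] : Ty → R → Fin 3 → R
  | .P, m => ![0, m, 1]
  | .Q, m => ![1, m, 1]
  | .R, m => ![1, m, 0]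
  | .S, m => ![1 - m, 0, 1]
  | .Y, _ => ![0, 1, 0]

/-- type of a label -/
def ty (l : Lab) : Ty :=
  match l.1 with
  | 0 => .Y
  | 1 => .P
  | 2 => .Q
  | 3 => .R
  | 4 => .R
  | 5 => .R
  | 6 => .Q
  | 7 => .Q
  | 8 => .S
  | 9 => .P
  | 10 => .R
  | _ => .S

/-- coefficient of a label -/
def co {kk : Type} [Field kk] (w : ℕ → kk) (l : Lab) : kk :=
  match l.1 with
  | 0 => 0
  | 1 => 0
  | 2 => 0
  | 3 => 0
  | 4 => 1
  | 5 => w l.2.2.1
  | 6 => 1
  | 7 => w l.2.2.1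
  | 8 => 1
  | 9 => w l.2.2.1
  | 10 => w l.2.2.1
  | _ => w l.2.2.1

/-- exponent of a label -/
def ex (M : ℕ) (l : Lab) : ℕ :=
  match l.1 with
  | 0 => 0
  | 1 => 0
  | 2 => 0
  | 3 => 0
  | 4 => l.2.2.1 + 1
  | 5 => l.2.2.1 + 1
  | 6 => M * (l.2.1 + 1)
  | 7 => M * (l.2.1 + 1)
  | 8 => M * (l.2.1 + 1) - (l.2.2.1 + 1)
  | 9 => M * (l.2.1 + 1)
  | 10 => M * (l.2.1 + 1)
  | _ => M * (l.2.1 + 1) - (l.2.2.2 + 1)

/-- the parameter of a label -/
noncomputable def mv {kk : Type} [Field kk] (w : ℕ → kk) (M : ℕ) (l : Lab) : kk[X] := C (co w l) * X ^ (ex M l)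

/-- the vector of a label -/
noncomputable def vec {kk : Type} [Field kk] (w : ℕ → kk) (M : ℕ) (l : Lab) : Fin 3 → kk[X] := vecT (ty l) (mv w M l)

/-! ### the labels which occur -/

/-- the gadget number `g` is `d` -/
def At (G : List Gad) (g : ℕ) (d : Gad) : Prop := G[g]? = some d

theorem At.mem {G : List Gad} {g : ℕ} {d : Gad} (h : At G g d) : d ∈ G :=
  List.mem_of_getElem? h

theorem At.eq {G : List Gad} {g : ℕ} {d d' : Gad} (h : At G g d) (h' : At G g d') : d = d' := by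
  unfold At at h h'
  rw [h] at h'
  exact Option.some.inj h'

theorem mem_zipIdx_iff {G : List Gad} {q : Gad × ℕ} : q ∈ G.zipIdx ↔ At G q.2 q.1 := by
  rw [List.mem_zipIdx_iff_getElem?]
  rfl

/-- wires of a gadget -/
def Wr (d : Gad) (a : ℕ) : Prop := a = d.2.1 ∨ a = d.2.2.1 ∨ a = d.2.2.2

/-- the labels which occur -/
inductive Occ (G : List Gad) : Lab → Prop
  | Y : Occ G pY
  | O : Occ G pO
  | E : Occ G pE
  | X : Occ G pX
  | u (g : ℕ) (d : Gad) (a : ℕ) (h : At G g d) (ha : Wr d a) : Occ G (pu a)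
  | r (g : ℕ) (d : Gad) (a : ℕ) (h : At G g d) (ha : Wr d a) : Occ G (pr a)
  | U (g : ℕ) (d : Gad) (h : At G g d) : Occ G (pU g)
  | V (g : ℕ) (d : Gad) (a : ℕ) (h : At G g d) (ha : Wr d a) : Occ G (pV g a)
  | K (g : ℕ) (d : Gad) (a : ℕ) (h : At G g d) (ha : Wr d a) : Occ G (pK g a)
  | A (g : ℕ) (d : Gad) (h : At G g d) (hd : d.1 = false) : Occ G (pA g d.2.1)
  | N (g : ℕ) (d : Gad) (h : At G g d) (hd : d.1 = false) : Occ G (pN g d.2.2.1)
  | H (g : ℕ) (d : Gad) (h : At G g d) (hd : d.1 = true) : Occ G (pH g d.2.1 d.2.2.1)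

theorem occ_of_mem {G : List Gad} {l : Lab} (h : l ∈ labs G) : Occ G l := by
  unfold labs at h
  rw [List.mem_append] at h
  rcases h with h | h
  · simp only [List.mem_cons, List.not_mem_nil, or_false] at h
    rcases h with rfl | rfl | rfl | rfl
    · exact .Y
    · exact .O
    · exact .E
    · exact .X
  · rw [List.mem_flatMap] at h
    obtain ⟨⟨d, g⟩, hq, h⟩ := h
    have hat : At G g d := mem_zipIdx_iff.1 hq
    simp only [glabs] at h
    rw [List.mem_append] at h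
    rcases h with h | h
    · simp only [List.mem_cons, List.not_mem_nil, or_false] at h
      rcases h with rfl | rfl | rfl | rfl | rfl | rfl | rfl | rfl | rfl | rfl | rfl | rfl | rfl
      · exact .u g d _ hat (Or.inl rfl)
      · exact .r g d _ hat (Or.inl rfl)
      · exact .u g d _ hat (Or.inr (Or.inl rfl))
      · exact .r g d _ hat (Or.inr (Or.inl rfl))
      · exact .u g d _ hat (Or.inr (Or.inr rfl))
      · exact .r g d _ hat (Or.inr (Or.inr rfl))
      · exact .U g d hat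
      · exact .V g d _ hat (Or.inl rfl)
      · exact .V g d _ hat (Or.inr (Or.inl rfl))
      · exact .V g d _ hat (Or.inr (Or.inr rfl))
      · exact .K g d _ hat (Or.inl rfl)
      · exact .K g d _ hat (Or.inr (Or.inl rfl))
      · exact .K g d _ hat (Or.inr (Or.inr rfl))
    · split_ifs at h with hd
      · rw [List.mem_singleton] at h
        subst h
        exact .H g d hat hd
      · simp only [List.mem_cons, List.not_mem_nil, or_false] at h
        have hd' : d.1 = false := by simpa using hd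
        rcases h with rfl | rfl
        · exact .A g d hat hd'
        · exact .N g d hat hd'

/-! ### the short lines -/

theorem line_u {G : List Gad} {g : ℕ} {d : Gad} {a : ℕ} (h : At G g d) (ha : Wr d a) :
    [pu a, pK g a, pU g] ∈ lines G := by
  unfold lines
  rw [List.mem_flatMap]
  refine ⟨(d, g), mem_zipIdx_iff.2 h, ?_⟩
  unfold glines
  rw [List.mem_append]
  left
  rcases ha with rfl | rfl | rfl <;> simp

theorem line_r {G : List Gad} {g : ℕ} {d : Gad} {a : ℕ} (h : At G g d) (ha : Wr d a) :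
    [pr a, pK g a, pV g a] ∈ lines G := by
  unfold lines
  rw [List.mem_flatMap]
  refine ⟨(d, g), mem_zipIdx_iff.2 h, ?_⟩
  unfold glines
  rw [List.mem_append]
  left
  rcases ha with rfl | rfl | rfl <;> simp

theorem line_mul {G : List Gad} {g : ℕ} {d : Gad} (h : At G g d) (hd : d.1 = true) :
    [pu d.2.2.1, pH g d.2.1 d.2.2.1, pV g d.2.1] ∈ lines G ∧
      [pr d.2.2.1, pH g d.2.1 d.2.2.1, pV g d.2.2.2] ∈ lines G := by
  constructor <;>
  · unfold lines
    rw [List.mem_flatMap]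
    refine ⟨(d, g), mem_zipIdx_iff.2 h, ?_⟩
    unfold glines
    rw [List.mem_append]
    right
    simp [hd]

theorem line_add {G : List Gad} {g : ℕ} {d : Gad} (h : At G g d) (hd : d.1 = false) :
    [pA g d.2.1, pV g d.2.1, pX] ∈ lines G ∧ [pO, pN g d.2.2.1, pV g d.2.2.1] ∈ lines G ∧
      [pA g d.2.1, pN g d.2.2.1, pV g d.2.2.2] ∈ lines G := by
  refine ⟨?_, ?_, ?_⟩ <;>
  · unfold lines
    rw [List.mem_flatMap]
    refine ⟨(d, g), mem_zipIdx_iff.2 h, ?_⟩
    unfold glines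
    rw [List.mem_append]
    right
    simp [hd]

theorem dep_line {G : List Gad} {L : List Lab} (hL : L ∈ lines G) {a b c : Lab} (ha : a ∈ L)
    (hb : b ∈ L) (hc : c ∈ L) : Dep G a b c :=
  Or.inr (Or.inr (Or.inr (Or.inr (Or.inr ⟨L, hL, ha, hb, hc⟩))))

/-! ### general facts on the values -/

structure Good {kk : Type} [Field kk] (G : List Gad) (w : ℕ → kk) (M : ℕ) : Prop where
  ok : ∀ g ∈ G, GOkK w g
  big : ∀ d ∈ G, ∀ a, Wr d a → a + 1 < M

variable {kk : Type} [Field kk] {G : List Gad} {w : ℕ → kk} {M : ℕ}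

theorem Good.wne (hG : Good G w M) {g : ℕ} {d : Gad} {a : ℕ} (h : At G g d) (ha : Wr d a) :
    w a ≠ 0 ∧ w a ≠ 1 := by
  obtain ⟨h1, h2, h3, -, -⟩ := hG.ok d h.mem
  rcases ha with rfl | rfl | rfl
  · exact h1
  · exact h2
  · exact h3

/-- the three wires of a gadget have different values -/
theorem Good.winj (hG : Good G w M) {g : ℕ} {d : Gad} {a b : ℕ} (h : At G g d) (ha : Wr d a)
    (hb : Wr d b) (hab : w a = w b) : a = b := by
  obtain ⟨h1, h2, h3, h4, h5⟩ := hG.ok d h.mem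
  have hxz : w d.2.1 ≠ w d.2.2.2 := by
    intro e
    split_ifs at h5 with hd
    · apply h2.2
      have : w d.2.1 * w d.2.2.1 = w d.2.1 * 1 := by rw [h5, mul_one, e]
      exact mul_left_cancel₀ h1.1 this
    · apply h2.1
      linear_combination h5 - e
  have hyz : w d.2.2.1 ≠ w d.2.2.2 := by
    intro e
    split_ifs at h5 with hd
    · apply h1.2
      have : w d.2.1 * w d.2.2.1 = 1 * w d.2.2.1 := by rw [h5, one_mul, e]
      exact mul_right_cancel₀ h2.1 this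
    · apply h1.1
      linear_combination h5 - e
  rcases ha with rfl | rfl | rfl <;> rcases hb with rfl | rfl | rfl
  · rfl
  · exact absurd hab h4
  · exact absurd hab hxz
  · exact absurd hab.symm h4
  · rfl
  · exact absurd hab hyz
  · exact absurd hab.symm hxz
  · exact absurd hab.symm hyz
  · rfl

theorem Good.lt (hG : Good G w M) {g : ℕ} {d : Gad} {a : ℕ} (h : At G g d) (ha : Wr d a) :
    a + 1 < M := hG.big d h.mem a ha

theorem Mle (M g : ℕ) : M ≤ M * (g + 1) := Nat.le_mul_of_pos_right M (Nat.succ_pos g)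

/-- equality of non-zero monomials -/
theorem mono_eq {q q' : kk} {e e' : ℕ} (hq : q ≠ 0)
    (h : (C q * X ^ e : kk[X]) = C q' * X ^ e') : q = q' ∧ e = e' := by
  have h1 := congrArg (fun p => p.coeff e) h
  simp only [coeff_C_mul_X_pow, if_true] at h1
  split_ifs at h1 with h2
  · exact ⟨h1, h2⟩
  · exact absurd h1 hq

theorem mono_ne_zero {q : kk} {e : ℕ} (hq : q ≠ 0) : (C q * X ^ e : kk[X]) ≠ 0 := by
  intro h
  have h1 := congrArg (fun p => p.coeff e) h
  simp only [coeff_C_mul_X_pow, if_true, coeff_zero] at h1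
  exact hq h1

/-- arithmetic of the exponents -/
theorem exp_inj {M g g' a a' : ℕ} (ha : a + 1 < M) (ha' : a' + 1 < M)
    (h : M * (g + 1) - (a + 1) = M * (g' + 1) - (a' + 1)) : g = g' ∧ a = a' := by
  have h1 := Mle M g
  have h2 := Mle M g'
  have hM : 0 < M := by omega
  have h3 : M * (g + 1) + (a' + 1) = M * (g' + 1) + (a + 1) := by omega
  have h4 : g + 1 = g' + 1 := by
    have e1 : (M * (g + 1) + (a' + 1)) / M = g + 1 := by
      rw [Nat.mul_add_div hM, Nat.div_eq_of_lt ha', Nat.add_zero]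
    have e2 : (M * (g' + 1) + (a + 1)) / M = g' + 1 := by
      rw [Nat.mul_add_div hM, Nat.div_eq_of_lt ha, Nat.add_zero]
    rw [← e1, ← e2, h3]
  refine ⟨by omega, ?_⟩
  rw [h4] at h3
  omega

theorem expM_inj {M g g' : ℕ} (hM : 0 < M) (h : M * (g + 1) = M * (g' + 1)) : g = g' := by
  have := Nat.eq_of_mul_eq_mul_left hM h
  omega


end GenBase

/-! ### from Generic -/

section Generic

variable {kk : Type} [Field kk] {G : List Gad} {w : ℕ → kk} {M : ℕ}

/-! ### classification of the labels of a given type -/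

theorem typeP (hG : Good G w M) {l : Lab} (h : Occ G l) (ht : ty l = .P) :
    (l = pO ∧ mv w M l = 0) ∨ ∃ g d, At G g d ∧ d.1 = false ∧ l = pA g d.2.1 ∧
      mv w M l = C (w d.2.1) * X ^ (M * (g + 1)) := by
  cases h with
  | O => left; refine ⟨rfl, ?_⟩; simp [mv, co, pO]
  | A g d h hd => right; exact ⟨g, d, h, hd, rfl, rfl⟩
  | _ => simp [ty, pY, pO, pE, pX, pu, pr, pU, pV, pK, pA, pN, pH] at ht

theorem typeQ (hG : Good G w M) {l : Lab} (h : Occ G l) (ht : ty l = .Q) :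
    (l = pE ∧ mv w M l = 0) ∨ ∃ g d, At G g d ∧ ∃ q : kk, mv w M l = C q * X ^ (M * (g + 1)) ∧
      ((l = pU g ∧ q = 1) ∨ ∃ a, Wr d a ∧ l = pV g a ∧ q = w a) := by
  cases h with
  | E => left; refine ⟨rfl, ?_⟩; simp [mv, co, pE]
  | U g d h => right; exact ⟨g, d, h, 1, rfl, Or.inl ⟨rfl, rfl⟩⟩
  | V g d a h ha => right; exact ⟨g, d, h, w a, rfl, Or.inr ⟨a, ha, rfl, rfl⟩⟩
  | _ => simp [ty, pY, pO, pE, pX, pu, pr, pU, pV, pK, pA, pN, pH] at ht

theorem typeR (hG : Good G w M) {l : Lab} (h : Occ G l) (ht : ty l = .R) :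
    (l = pX ∧ mv w M l = 0) ∨
    (∃ g d a, At G g d ∧ Wr d a ∧ ∃ q : kk, mv w M l = C q * X ^ (a + 1) ∧
      ((l = pu a ∧ q = 1) ∨ (l = pr a ∧ q = w a))) ∨
    ∃ g d, At G g d ∧ d.1 = false ∧ l = pN g d.2.2.1 ∧
      mv w M l = C (w d.2.2.1) * X ^ (M * (g + 1)) := by
  cases h with
  | X => left; refine ⟨rfl, ?_⟩; simp [mv, co, pX]
  | u g d a h ha => right; left; exact ⟨g, d, a, h, ha, 1, rfl, Or.inl ⟨rfl, rfl⟩⟩
  | r g d a h ha => right; left; exact ⟨g, d, a, h, ha, w a, rfl, Or.inr ⟨rfl, rfl⟩⟩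
  | N g d h hd => right; right; exact ⟨g, d, h, hd, rfl, rfl⟩
  | _ => simp [ty, pY, pO, pE, pX, pu, pr, pU, pV, pK, pA, pN, pH] at ht

theorem typeS (hG : Good G w M) {l : Lab} (h : Occ G l) (ht : ty l = .S) :
    ∃ g d a, At G g d ∧ Wr d a ∧ ∃ q : kk, q ≠ 0 ∧ mv w M l = C q * X ^ (M * (g + 1) - (a + 1)) ∧
      ((l = pK g a ∧ q = 1) ∨ (d.1 = true ∧ a = d.2.2.1 ∧ l = pH g d.2.1 d.2.2.1 ∧
        q = w d.2.1)) := by
  cases h with
  | K g d a h ha => exact ⟨g, d, a, h, ha, 1, one_ne_zero, rfl, Or.inl ⟨rfl, rfl⟩⟩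
  | H g d h hd =>
    exact ⟨g, d, _, h, Or.inr (Or.inl rfl), w d.2.1, (hG.wne h (Or.inl rfl)).1, rfl,
      Or.inr ⟨hd, rfl, rfl, rfl⟩⟩
  | _ => simp [ty, pY, pO, pE, pX, pu, pr, pU, pV, pK, pA, pN, pH] at ht

/-- the parameters of two different labels of the same type are different -/
theorem mv_inj (hG : Good G w M) {l l' : Lab} (h : Occ G l) (h' : Occ G l') (ht : ty l = ty l')
    (hY : ty l ≠ .Y) (he : mv w M l = mv w M l') : l = l' := by
  rcases hl : ty l with _ | _ | _ | _ | _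
  · -- P
    have hl' : ty l' = .P := by rw [← ht, hl]
    rcases typeP hG h hl with ⟨e1, e2⟩ | ⟨g, d, hg, hd, e1, e2⟩ <;>
      rcases typeP hG h' hl' with ⟨e1', e2'⟩ | ⟨g', d', hg', hd', e1', e2'⟩
    · rw [e1, e1']
    · rw [e2, e2'] at he
      exact absurd he.symm (mono_ne_zero (hG.wne hg' (Or.inl rfl)).1)
    · rw [e2, e2'] at he
      exact absurd he (mono_ne_zero (hG.wne hg (Or.inl rfl)).1)
    · rw [e2, e2'] at he
      obtain ⟨-, he⟩ := mono_eq (hG.wne hg (Or.inl rfl)).1 he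
      have hM := hG.lt hg (Or.inl rfl)
      have := expM_inj (by omega) he
      subst this
      have := hg.eq hg'
      subst this
      rw [e1, e1']
  · -- Q
    have hl' : ty l' = .Q := by rw [← ht, hl]
    have hq : ∀ {g : ℕ} {d : Gad} {q : kk} {l : Lab}, At G g d →
        ((l = pU g ∧ q = 1) ∨ ∃ a, Wr d a ∧ l = pV g a ∧ q = w a) → q ≠ 0 := by
      rintro g d q l hg (⟨-, rfl⟩ | ⟨a, ha, -, rfl⟩)
      · exact one_ne_zero
      · exact (hG.wne hg ha).1
    rcases typeQ hG h hl with ⟨e1, e2⟩ | ⟨g, d, hg, q, e2, hc⟩ <;>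
      rcases typeQ hG h' hl' with ⟨e1', e2'⟩ | ⟨g', d', hg', q', e2', hc'⟩
    · rw [e1, e1']
    · rw [e2, e2'] at he
      exact absurd he.symm (mono_ne_zero (hq hg' hc'))
    · rw [e2, e2'] at he
      exact absurd he (mono_ne_zero (hq hg hc))
    · rw [e2, e2'] at he
      obtain ⟨hqq, he⟩ := mono_eq (hq hg hc) he
      have hM := hG.lt hg (Or.inl rfl)
      have := expM_inj (by omega) he
      subst this
      have := hg.eq hg'
      subst this
      rcases hc with ⟨e1, e3⟩ | ⟨a, ha, e1, e3⟩ <;> rcases hc' with ⟨e1', e3'⟩ | ⟨a', ha', e1', e3'⟩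
      · rw [e1, e1']
      · exact absurd (by rw [← e3', ← hqq, e3]) (hG.wne hg ha').2
      · exact absurd (by rw [← e3, hqq, e3']) (hG.wne hg ha).2
      · have := hG.winj hg ha ha' (by rw [← e3, ← e3', hqq])
        rw [e1, e1', this]
  · -- R
    have hl' : ty l' = .R := by rw [← ht, hl]
    rcases typeR hG h hl with ⟨e1, e2⟩ | ⟨g, d, a, hg, ha, q, e2, hc⟩ | ⟨g, d, hg, hd, e1, e2⟩ <;>
      rcases typeR hG h' hl' with ⟨e1', e2'⟩ | ⟨g', d', a', hg', ha', q', e2', hc'⟩ |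
        ⟨g', d', hg', hd', e1', e2'⟩
    · rw [e1, e1']
    · rw [e2, e2'] at he
      have hq : q' ≠ 0 := by
        rcases hc' with ⟨-, rfl⟩ | ⟨-, rfl⟩
        · exact one_ne_zero
        · exact (hG.wne hg' ha').1
      exact absurd he.symm (mono_ne_zero hq)
    · rw [e2, e2'] at he
      exact absurd he.symm (mono_ne_zero (hG.wne hg' (Or.inr (Or.inl rfl))).1)
    · rw [e2, e2'] at he
      have hq : q ≠ 0 := by
        rcases hc with ⟨-, rfl⟩ | ⟨-, rfl⟩
        · exact one_ne_zero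
        · exact (hG.wne hg ha).1
      exact absurd he (mono_ne_zero hq)
    · rw [e2, e2'] at he
      have hq : q ≠ 0 := by
        rcases hc with ⟨-, rfl⟩ | ⟨-, rfl⟩
        · exact one_ne_zero
        · exact (hG.wne hg ha).1
      obtain ⟨hqq, he⟩ := mono_eq hq he
      have haa : a = a' := by omega
      subst haa
      rcases hc with ⟨e1, e3⟩ | ⟨e1, e3⟩ <;> rcases hc' with ⟨e1', e3'⟩ | ⟨e1', e3'⟩
      · rw [e1, e1']
      · exact absurd (by rw [← e3', ← hqq, e3]) (hG.wne hg ha).2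
      · exact absurd (by rw [← e3, hqq, e3']) (hG.wne hg ha).2
      · rw [e1, e1']
    · rw [e2, e2'] at he
      have hq : q ≠ 0 := by
        rcases hc with ⟨-, rfl⟩ | ⟨-, rfl⟩
        · exact one_ne_zero
        · exact (hG.wne hg ha).1
      obtain ⟨-, he⟩ := mono_eq hq he
      have h1 := hG.lt hg ha
      have h2 := Mle M g'
      omega
    · rw [e2, e2'] at he
      exact absurd he (mono_ne_zero (hG.wne hg (Or.inr (Or.inl rfl))).1)
    · rw [e2, e2'] at he
      obtain ⟨-, he⟩ := mono_eq (hG.wne hg (Or.inr (Or.inl rfl))).1 he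
      have h1 := hG.lt hg' ha'
      have h2 := Mle M g
      omega
    · rw [e2, e2'] at he
      obtain ⟨-, he⟩ := mono_eq (hG.wne hg (Or.inr (Or.inl rfl))).1 he
      have hM := hG.lt hg (Or.inl rfl)
      have := expM_inj (by omega) he
      subst this
      have := hg.eq hg'
      subst this
      rw [e1, e1']
  · -- S
    have hl' : ty l' = .S := by rw [← ht, hl]
    obtain ⟨g, d, a, hg, ha, q, hq, e2, hc⟩ := typeS hG h hl
    obtain ⟨g', d', a', hg', ha', q', hq', e2', hc'⟩ := typeS hG h' hl'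
    rw [e2, e2'] at he
    obtain ⟨hqq, he⟩ := mono_eq hq he
    obtain ⟨hgg, haa⟩ := exp_inj (hG.lt hg ha) (hG.lt hg' ha') he
    subst hgg
    subst haa
    have := hg.eq hg'
    subst this
    rcases hc with ⟨e1, e3⟩ | ⟨hd, e4, e1, e3⟩ <;> rcases hc' with ⟨e1', e3'⟩ | ⟨hd', e4', e1', e3'⟩
    · rw [e1, e1']
    · exact absurd (by rw [← e3', ← hqq, e3]) (hG.wne hg (Or.inl rfl)).2
    · exact absurd (by rw [← e3, hqq, e3']) (hG.wne hg (Or.inl rfl)).2
    · rw [e1, e1']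
  · exact absurd hl hY


end Generic

/-! ### from Generic2 -/

section Generic2

theorem dPPQ {R : Type} [CommRing R] (a b c : R) :
    dt (vecT .P a) (vecT .P b) (vecT .Q c) = a - b := by
  simp only [dt, vecT, Matrix.cons_val]
  ring

theorem dPPR {R : Type} [CommRing R] (a b c : R) :
    dt (vecT .P a) (vecT .P b) (vecT .R c) = a - b := by
  simp only [dt, vecT, Matrix.cons_val]
  ring

theorem dPPS {R : Type} [CommRing R] (a b c : R) :
    dt (vecT .P a) (vecT .P b) (vecT .S c) = (a - b) * (1 - c) := by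
  simp only [dt, vecT, Matrix.cons_val]
  ring

theorem dPQQ {R : Type} [CommRing R] (a b c : R) :
    dt (vecT .P a) (vecT .Q b) (vecT .Q c) = c - b := by
  simp only [dt, vecT, Matrix.cons_val]
  ring

theorem dPQR {R : Type} [CommRing R] (a b c : R) :
    dt (vecT .P a) (vecT .Q b) (vecT .R c) = a + c - b := by
  simp only [dt, vecT, Matrix.cons_val]
  ring

theorem dPQS {R : Type} [CommRing R] (a b c : R) :
    dt (vecT .P a) (vecT .Q b) (vecT .S c) = -(a * c + b - b * c) := by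
  simp only [dt, vecT, Matrix.cons_val]
  ring

theorem dPQY {R : Type} [CommRing R] (a b c : R) :
    dt (vecT .P a) (vecT .Q b) (vecT .Y c) = 1 := by
  simp only [dt, vecT, Matrix.cons_val]
  ring

theorem dPRR {R : Type} [CommRing R] (a b c : R) :
    dt (vecT .P a) (vecT .R b) (vecT .R c) = c - b := by
  simp only [dt, vecT, Matrix.cons_val]
  ring

theorem dPRS {R : Type} [CommRing R] (a b c : R) :
    dt (vecT .P a) (vecT .R b) (vecT .S c) = -(a + b - b * c) := by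
  simp only [dt, vecT, Matrix.cons_val]
  ring

theorem dPRY {R : Type} [CommRing R] (a b c : R) :
    dt (vecT .P a) (vecT .R b) (vecT .Y c) = 1 := by
  simp only [dt, vecT, Matrix.cons_val]
  ring

theorem dPSS {R : Type} [CommRing R] (a b c : R) :
    dt (vecT .P a) (vecT .S b) (vecT .S c) = a * (b - c) := by
  simp only [dt, vecT, Matrix.cons_val]
  ring

theorem dPSY {R : Type} [CommRing R] (a b c : R) :
    dt (vecT .P a) (vecT .S b) (vecT .Y c) = 1 - b := by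
  simp only [dt, vecT, Matrix.cons_val]
  ring

theorem dQQR {R : Type} [CommRing R] (a b c : R) :
    dt (vecT .Q a) (vecT .Q b) (vecT .R c) = a - b := by
  simp only [dt, vecT, Matrix.cons_val]
  ring

theorem dQQS {R : Type} [CommRing R] (a b c : R) :
    dt (vecT .Q a) (vecT .Q b) (vecT .S c) = (b - a) * c := by
  simp only [dt, vecT, Matrix.cons_val]
  ring

theorem dQRR {R : Type} [CommRing R] (a b c : R) :
    dt (vecT .Q a) (vecT .R b) (vecT .R c) = c - b := by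
  simp only [dt, vecT, Matrix.cons_val]
  ring

theorem dQRS {R : Type} [CommRing R] (a b c : R) :
    dt (vecT .Q a) (vecT .R b) (vecT .S c) = b * c - a := by
  simp only [dt, vecT, Matrix.cons_val]
  ring

theorem dQRY {R : Type} [CommRing R] (a b c : R) :
    dt (vecT .Q a) (vecT .R b) (vecT .Y c) = 1 := by
  simp only [dt, vecT, Matrix.cons_val]
  ring

theorem dQSS {R : Type} [CommRing R] (a b c : R) :
    dt (vecT .Q a) (vecT .S b) (vecT .S c) = a * (b - c) := by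
  simp only [dt, vecT, Matrix.cons_val]
  ring

theorem dQSY {R : Type} [CommRing R] (a b c : R) :
    dt (vecT .Q a) (vecT .S b) (vecT .Y c) = -b := by
  simp only [dt, vecT, Matrix.cons_val]
  ring

theorem dRRS {R : Type} [CommRing R] (a b c : R) :
    dt (vecT .R a) (vecT .R b) (vecT .S c) = b - a := by
  simp only [dt, vecT, Matrix.cons_val]
  ring

theorem dRSS {R : Type} [CommRing R] (a b c : R) :
    dt (vecT .R a) (vecT .S b) (vecT .S c) = a * (b - c) := by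
  simp only [dt, vecT, Matrix.cons_val]
  ring

theorem dRSY {R : Type} [CommRing R] (a b c : R) :
    dt (vecT .R a) (vecT .S b) (vecT .Y c) = -1 := by
  simp only [dt, vecT, Matrix.cons_val]
  ring

theorem dSSY {R : Type} [CommRing R] (a b c : R) :
    dt (vecT .S a) (vecT .S b) (vecT .Y c) = a - b := by
  simp only [dt, vecT, Matrix.cons_val]
  ring


variable {kk : Type} [Field kk] {G : List Gad} {w : ℕ → kk} {M : ℕ}

/-! ### lines of the types -/

theorem onP_of {l : Lab} (h : Occ G l) (ht : ty l = .P) : onP l = true := by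
  cases h <;> first | rfl | simp [ty, pY, pO, pE, pX, pu, pr, pU, pV, pK, pA, pN, pH] at ht

theorem onQ_of {l : Lab} (h : Occ G l) (ht : ty l = .Q) : onQ l = true := by
  cases h <;> first | rfl | simp [ty, pY, pO, pE, pX, pu, pr, pU, pV, pK, pA, pN, pH] at ht

theorem onR_of {l : Lab} (h : Occ G l) (ht : ty l = .R) : onR l = true := by
  cases h <;> first | rfl | simp [ty, pY, pO, pE, pX, pu, pr, pU, pV, pK, pA, pN, pH] at ht

theorem onS_of {l : Lab} (h : Occ G l) (ht : ty l = .S) : onS l = true := by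
  cases h <;> first | rfl | simp [ty, pY, pO, pE, pX, pu, pr, pU, pV, pK, pA, pN, pH] at ht

theorem eqY_of {l : Lab} (h : Occ G l) (ht : ty l = .Y) : l = pY := by
  cases h <;> first | rfl | simp [ty, pY, pO, pE, pX, pu, pr, pU, pV, pK, pA, pN, pH] at ht

/-! ### special cases -/

/-- the first coefficient of a point of type `Q` -/
theorem q_ne (hG : Good G w M) {g : ℕ} {d : Gad} {q : kk} {l : Lab} (hg : At G g d)
    (h : (l = pU g ∧ q = 1) ∨ ∃ a, Wr d a ∧ l = pV g a ∧ q = w a) : q ≠ 0 := by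
  rcases h with ⟨-, rfl⟩ | ⟨a, ha, -, rfl⟩
  · exact one_ne_zero
  · exact (hG.wne hg ha).1

theorem q_ne' (hG : Good G w M) {g : ℕ} {d : Gad} {a : ℕ} {q : kk} {l : Lab} (hg : At G g d)
    (ha : Wr d a) (h : (l = pu a ∧ q = 1) ∨ (l = pr a ∧ q = w a)) : q ≠ 0 := by
  rcases h with ⟨-, rfl⟩ | ⟨-, rfl⟩
  · exact one_ne_zero
  · exact (hG.wne hg ha).1

/-- three monomials -/
theorem tri {a b c : kk} {i j k : ℕ} (ha : a ≠ 0) (hb : b ≠ 0) (hc : c ≠ 0)
    (h : (C a * X ^ i + C b * X ^ j - C c * X ^ k : kk[X]) = 0) : i = j ∧ j = k ∧ a + b = c := by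
  have h0 : ∀ n : ℕ, (if n = i then a else 0) + (if n = j then b else 0) -
      (if n = k then c else 0) = 0 := by
    intro n
    have h1 := congrArg (fun p => p.coeff n) h
    simpa only [coeff_sub, coeff_add, coeff_C_mul_X_pow, coeff_zero] using h1
  have hi := h0 i
  have hj := h0 j
  have hk := h0 k
  by_cases hij : i = j
  · subst hij
    by_cases hik : i = k
    · subst hik
      simp only [if_true] at hi
      exact ⟨rfl, rfl, by linear_combination hi⟩
    · exfalso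
      simp only [if_neg (Ne.symm hik), if_true] at hk
      apply hc
      linear_combination (-1 : kk) * hk
  · exfalso
    by_cases hik : i = k
    · subst hik
      simp only [if_true, if_neg (Ne.symm hij)] at hj
      apply hb
      linear_combination hj
    · simp only [if_true, if_neg hij, if_neg hik] at hi
      apply ha
      linear_combination hi

theorem duo {a b : kk} {i j : ℕ} (ha : a ≠ 0)
    (h : (C a * X ^ i + C b * X ^ j : kk[X]) = 0) : i = j ∧ a + b = 0 := by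
  have h1 : (C a * X ^ i : kk[X]) = C (-b) * X ^ j := by
    rw [C_neg, neg_mul]
    exact eq_neg_of_add_eq_zero_left h
  obtain ⟨h2, h3⟩ := mono_eq ha h1
  exact ⟨h3, by linear_combination h2⟩

theorem Mpos (hG : Good G w M) {g : ℕ} {d : Gad} (h : At G g d) : 0 < M := by
  have := hG.lt h (Or.inl rfl)
  omega

theorem expmod {M a g1 g2 g3 : ℕ} (ha : a + 1 < M) :
    M * (g1 + 1) + (M * (g3 + 1) - (a + 1)) ≠ M * (g2 + 1) := by
  intro h
  have h1 := Mle M g3
  have h2 : M * (g1 + 1 + (g3 + 1)) = M * (g2 + 1) + (a + 1) := by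
    rw [Nat.mul_add]; omega
  have hM : 0 < M := by omega
  have e1 : (M * (g2 + 1) + (a + 1)) % M = a + 1 := by
    rw [Nat.mul_add_mod, Nat.mod_eq_of_lt ha]
  rw [← h2, Nat.mul_mod_right] at e1
  omega

theorem expmod2 {M a b g1 g3 : ℕ} (ha : a + 1 < M) (hb : b + 1 < M)
    (h : (a + 1) + (M * (g3 + 1) - (b + 1)) = M * (g1 + 1)) : a = b ∧ g3 = g1 := by
  have h1 := Mle M g3
  have h2 : M * (g3 + 1) - (b + 1) = M * (g1 + 1) - (a + 1) := by
    have := Mle M g1
    omega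
  obtain ⟨h3, h4⟩ := exp_inj hb ha h2
  exact ⟨h4.symm, h3⟩

theorem S_facts (hG : Good G w M) {l : Lab} (h : Occ G l) (ht : ty l = .S) :
    mv w M l ≠ 0 ∧ 1 - mv w M l ≠ 0 := by
  obtain ⟨g, d, a, hg, ha, q, hq, e, -⟩ := typeS hG h ht
  rw [e]
  refine ⟨mono_ne_zero hq, ?_⟩
  intro h0
  have h1 := hG.lt hg ha
  have h2 := Mle M g
  have h3 := congrArg (fun p => p.coeff 0) h0
  simp only [coeff_sub, coeff_C_mul_X_pow, coeff_zero, coeff_one_zero] at h3
  rw [if_neg (by omega)] at h3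
  norm_num at h3

theorem caseP0 (hG : Good G w M) {l : Lab} (h : Occ G l) (ht : ty l = .P)
    (h0 : mv w M l = 0) : l = pO := by
  rcases typeP hG h ht with ⟨e, -⟩ | ⟨g, d, hg, -, -, e⟩
  · exact e
  · rw [e] at h0
    exact absurd h0 (mono_ne_zero (hG.wne hg (Or.inl rfl)).1)

theorem caseQ0 (hG : Good G w M) {l : Lab} (h : Occ G l) (ht : ty l = .Q)
    (h0 : mv w M l = 0) : l = pE := by
  rcases typeQ hG h ht with ⟨e, -⟩ | ⟨g, d, hg, q, e, hc⟩
  · exact e
  · rw [e] at h0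
    exact absurd h0 (mono_ne_zero (q_ne hG hg hc))

theorem caseR0 (hG : Good G w M) {l : Lab} (h : Occ G l) (ht : ty l = .R)
    (h0 : mv w M l = 0) : l = pX := by
  rcases typeR hG h ht with ⟨e, -⟩ | ⟨g, d, a, hg, ha, q, e, hc⟩ | ⟨g, d, hg, -, -, e⟩
  · exact e
  · rw [e] at h0
    exact absurd h0 (mono_ne_zero (q_ne' hG hg ha hc))
  · rw [e] at h0
    exact absurd h0 (mono_ne_zero (hG.wne hg (Or.inr (Or.inl rfl))).1)

theorem Good.add (hG : Good G w M) {g : ℕ} {d : Gad} (h : At G g d) (hd : d.1 = false) :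
    w d.2.1 + w d.2.2.1 = w d.2.2.2 := by
  have := (hG.ok d h.mem).2.2.2.2
  rwa [if_neg (by simp [hd])] at this

theorem Good.mul (hG : Good G w M) {g : ℕ} {d : Gad} (h : At G g d) (hd : d.1 = true) :
    w d.2.1 * w d.2.2.1 = w d.2.2.2 := by
  have := (hG.ok d h.mem).2.2.2.2
  rwa [if_pos hd] at this

theorem caseQRS (hG : Good G w M) {l₁ l₂ l₃ : Lab} (h₁ : Occ G l₁) (h₂ : Occ G l₂)
    (h₃ : Occ G l₃) (t₁ : ty l₁ = .Q) (t₂ : ty l₂ = .R) (t₃ : ty l₃ = .S)
    (h : mv w M l₂ * mv w M l₃ - mv w M l₁ = 0) : Dep G l₁ l₂ l₃ := by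
  obtain ⟨hS, -⟩ := S_facts hG h₃ t₃
  by_cases z1 : mv w M l₁ = 0
  · have z2 : mv w M l₂ = 0 := by
      rw [z1, sub_zero] at h
      exact (mul_eq_zero.1 h).resolve_right hS
    have e1 := caseQ0 hG h₁ t₁ z1
    have e2 := caseR0 hG h₂ t₂ z2
    subst e1
    subst e2
    exact Or.inr (Or.inr (Or.inr (Or.inr (Or.inl ⟨rfl, rfl, onS_of h₃ t₃⟩))))
  · have z2 : mv w M l₂ ≠ 0 := by
      intro z2
      rw [z2, zero_mul, zero_sub, neg_eq_zero] at h
      exact z1 h
    have h' : mv w M l₂ * mv w M l₃ = mv w M l₁ := sub_eq_zero.1 h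
    rcases typeQ hG h₁ t₁ with ⟨-, e⟩ | ⟨g, d, hg, q, e, hc⟩
    · exact absurd e z1
    obtain ⟨g', d', a', hg', ha', q', hq', e', hc'⟩ := typeS hG h₃ t₃
    rcases typeR hG h₂ t₂ with ⟨-, f⟩ | ⟨g'', d'', a, hg'', ha, q'', f, hc''⟩ |
      ⟨g'', d'', hg'', hd'', -, f⟩
    · exact absurd f z2
    · rw [e, e', f] at h'
      have h2 : (C (q'' * q') * X ^ ((a + 1) + (M * (g' + 1) - (a' + 1))) : kk[X]) =
          C q * X ^ (M * (g + 1)) := by
        rw [← h', C_mul, pow_add]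
        ring
      obtain ⟨hqq, hee⟩ := mono_eq (mul_ne_zero (q_ne' hG hg'' ha hc'') hq') h2
      obtain ⟨haa, hgg⟩ := expmod2 (hG.lt hg'' ha) (hG.lt hg' ha') hee
      subst haa
      subst hgg
      have := hg.eq hg'
      subst this
      rcases hc' with ⟨rfl, rfl⟩ | ⟨hd, haa, rfl, rfl⟩
      · rcases hc'' with ⟨rfl, rfl⟩ | ⟨rfl, rfl⟩
        · rcases hc with ⟨rfl, rfl⟩ | ⟨b, hb, rfl, rfl⟩
          · exact dep_line (line_u hg ha') (by simp) (by simp) (by simp)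
          · exact absurd (by rw [← hqq, one_mul]) (hG.wne hg hb).2
        · rcases hc with ⟨rfl, rfl⟩ | ⟨b, hb, rfl, rfl⟩
          · exact absurd (by rw [← hqq, mul_one]) (hG.wne hg ha').2
          · have := hG.winj hg ha' hb (by rw [← hqq, mul_one])
            subst this
            exact dep_line (line_r hg ha') (by simp) (by simp) (by simp)
      · subst haa
        rcases hc'' with ⟨rfl, rfl⟩ | ⟨rfl, rfl⟩
        · rcases hc with ⟨rfl, rfl⟩ | ⟨b, hb, rfl, rfl⟩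
          · exact absurd (by rw [← hqq, one_mul]) (hG.wne hg (Or.inl rfl)).2
          · have := hG.winj hg hb (Or.inl rfl) (by rw [← hqq, one_mul])
            subst this
            exact dep_line (line_mul hg hd).1 (by simp) (by simp) (by simp)
        · have hz : w d.2.2.1 * w d.2.1 = w d.2.2.2 := by rw [mul_comm, hG.mul hg hd]
          rw [hz] at hqq
          rcases hc with ⟨rfl, rfl⟩ | ⟨b, hb, rfl, rfl⟩
          · exact absurd hqq (hG.wne hg (Or.inr (Or.inr rfl))).2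
          · have := hG.winj hg hb (Or.inr (Or.inr rfl)) hqq.symm
            subst this
            exact dep_line (line_mul hg hd).2 (by simp) (by simp) (by simp)
    · exfalso
      rw [e, e', f] at h'
      have h2 : (C (w d''.2.2.1 * q') * X ^ (M * (g'' + 1) + (M * (g' + 1) - (a' + 1))) : kk[X]) =
          C q * X ^ (M * (g + 1)) := by
        rw [← h', C_mul, pow_add]
        ring
      obtain ⟨-, hee⟩ := mono_eq
        (mul_ne_zero (hG.wne hg'' (Or.inr (Or.inl rfl))).1 hq') h2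
      exact expmod (hG.lt hg' ha') hee

theorem casePRS (hG : Good G w M) {l₁ l₂ l₃ : Lab} (h₁ : Occ G l₁) (h₂ : Occ G l₂)
    (h₃ : Occ G l₃) (t₁ : ty l₁ = .P) (t₂ : ty l₂ = .R) (t₃ : ty l₃ = .S)
    (h : -(mv w M l₁ + mv w M l₂ - mv w M l₂ * mv w M l₃) = 0) : Dep G l₁ l₂ l₃ := by
  obtain ⟨hS, hS1⟩ := S_facts hG h₃ t₃
  rw [neg_eq_zero] at h
  by_cases z2 : mv w M l₂ = 0
  · have z1 : mv w M l₁ = 0 := by
      rw [z2, zero_mul, add_zero, sub_zero] at h
      exact h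
    have e1 := caseP0 hG h₁ t₁ z1
    have e2 := caseR0 hG h₂ t₂ z2
    subst e1
    subst e2
    exact Or.inr (Or.inr (Or.inr (Or.inr (Or.inl ⟨rfl, rfl, onS_of h₃ t₃⟩))))
  · exfalso
    obtain ⟨g', d', a', hg', ha', q', hq', e', hc'⟩ := typeS hG h₃ t₃
    have hM := hG.lt hg' ha'
    have hM' := Mle M g'
    have key : ∃ (q : kk) (i : ℕ), q ≠ 0 ∧ mv w M l₂ = C q * X ^ i := by
      rcases typeR hG h₂ t₂ with ⟨-, f⟩ | ⟨g'', d'', a, hg'', ha, q'', f, hc''⟩ |
        ⟨g'', d'', hg'', hd'', -, f⟩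
      · exact absurd f z2
      · exact ⟨q'', _, q_ne' hG hg'' ha hc'', f⟩
      · exact ⟨_, _, (hG.wne hg'' (Or.inr (Or.inl rfl))).1, f⟩
    obtain ⟨q, i, hq, f⟩ := key
    rcases typeP hG h₁ t₁ with ⟨-, e⟩ | ⟨g, d, hg, -, -, e⟩
    · rw [e, zero_add] at h
      have : mv w M l₂ * (1 - mv w M l₃) = 0 := by linear_combination h
      rcases mul_eq_zero.1 this with h5 | h5
      · exact z2 h5
      · exact hS1 h5
    · rw [e, f, e'] at h
      have h2 : (C (w d.2.1) * X ^ (M * (g + 1)) + C q * X ^ i -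
          C (q * q') * X ^ (i + (M * (g' + 1) - (a' + 1))) : kk[X]) = 0 := by
        rw [← h, C_mul, pow_add]
        ring
      obtain ⟨-, h3, -⟩ := tri (hG.wne hg (Or.inl rfl)).1 hq (mul_ne_zero hq hq') h2
      omega

theorem casePQS (hG : Good G w M) {l₁ l₂ l₃ : Lab} (h₁ : Occ G l₁) (h₂ : Occ G l₂)
    (h₃ : Occ G l₃) (t₁ : ty l₁ = .P) (t₂ : ty l₂ = .Q) (t₃ : ty l₃ = .S)
    (h : -(mv w M l₁ * mv w M l₃ + mv w M l₂ - mv w M l₂ * mv w M l₃) = 0) : Dep G l₁ l₂ l₃ := by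
  obtain ⟨hS, hS1⟩ := S_facts hG h₃ t₃
  rw [neg_eq_zero] at h
  by_cases z2 : mv w M l₂ = 0
  · have z1 : mv w M l₁ = 0 := by
      rw [z2, zero_mul, add_zero, sub_zero] at h
      exact (mul_eq_zero.1 h).resolve_right hS
    have e1 := caseP0 hG h₁ t₁ z1
    have e2 := caseQ0 hG h₂ t₂ z2
    subst e1
    subst e2
    exact Or.inr (Or.inr (Or.inr (Or.inr (Or.inl ⟨rfl, rfl, onS_of h₃ t₃⟩))))
  · exfalso
    obtain ⟨g', d', a', hg', ha', q', hq', e', hc'⟩ := typeS hG h₃ t₃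
    have hM := hG.lt hg' ha'
    have hM' := Mle M g'
    rcases typeQ hG h₂ t₂ with ⟨-, f⟩ | ⟨g, d, hg, q, f, hc⟩
    · exact z2 f
    have hq := q_ne hG hg hc
    have key : ∃ (p : kk) (i : ℕ), mv w M l₁ = C p * X ^ (M * (i + 1)) := by
      rcases typeP hG h₁ t₁ with ⟨-, e⟩ | ⟨g'', d'', hg'', -, -, e⟩
      · exact ⟨0, 0, by rw [e]; simp⟩
      · exact ⟨_, _, e⟩
    obtain ⟨p, i, e⟩ := key
    rw [e, f, e'] at h
    have h2 : (C (p * q') * X ^ (M * (i + 1) + (M * (g' + 1) - (a' + 1))) +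
        C q * X ^ (M * (g + 1)) -
          C (q * q') * X ^ (M * (g + 1) + (M * (g' + 1) - (a' + 1))) : kk[X]) = 0 := by
      rw [← h, C_mul, C_mul, pow_add, pow_add]
      ring
    have h3 := congrArg (fun p => p.coeff (M * (g + 1))) h2
    simp only [coeff_sub, coeff_add, coeff_C_mul_X_pow, coeff_zero, if_true] at h3
    rw [if_neg (fun hh => expmod (hG.lt hg' ha') hh.symm), if_neg (by omega)] at h3
    apply hq
    linear_combination h3

theorem casePQR (hG : Good G w M) {l₁ l₂ l₃ : Lab} (h₁ : Occ G l₁) (h₂ : Occ G l₂)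
    (h₃ : Occ G l₃) (t₁ : ty l₁ = .P) (t₂ : ty l₂ = .Q) (t₃ : ty l₃ = .R)
    (h : mv w M l₁ + mv w M l₃ - mv w M l₂ = 0) : Dep G l₁ l₂ l₃ := by
  have wne : ∀ {g : ℕ} {d : Gad} {a : ℕ}, At G g d → Wr d a → w a ≠ 0 ∧ w a ≠ 1 :=
    fun hg ha => hG.wne hg ha
  rcases typeP hG h₁ t₁ with ⟨rfl, e⟩ | ⟨g, d, hg, hd, rfl, e⟩ <;>
  rcases typeQ hG h₂ t₂ with ⟨rfl, f⟩ | ⟨g', d', hg', q, f, hc⟩ <;>
  rcases typeR hG h₃ t₃ with ⟨rfl, k⟩ | ⟨g'', d'', a, hg'', ha, q'', k, hc''⟩ |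
      ⟨g'', d'', hg'', hd'', rfl, k⟩ <;>
  rw [e, f, k] at h
  · -- O E X
    exact Or.inr (Or.inr (Or.inr (Or.inr (Or.inl ⟨rfl, rfl, rfl⟩))))
  · rw [zero_add, sub_zero] at h
    exact absurd h (mono_ne_zero (q_ne' hG hg'' ha hc''))
  · rw [zero_add, sub_zero] at h
    exact absurd h (mono_ne_zero (wne hg'' (Or.inr (Or.inl rfl))).1)
  · rw [zero_add, zero_sub, neg_eq_zero] at h
    exact absurd h (mono_ne_zero (q_ne hG hg' hc))
  · exfalso
    rw [zero_add, sub_eq_zero] at h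
    obtain ⟨-, h2⟩ := mono_eq (q_ne' hG hg'' ha hc'') h
    have h3 := hG.lt hg'' ha
    have h4 := Mle M g'
    omega
  · rw [zero_add, sub_eq_zero] at h
    obtain ⟨h1, h2⟩ := mono_eq (wne hg'' (Or.inr (Or.inl rfl))).1 h
    have := expM_inj (Mpos hG hg') h2
    subst this
    have := hg'.eq hg''
    subst this
    rcases hc with ⟨rfl, rfl⟩ | ⟨b, hb, rfl, rfl⟩
    · exact absurd h1 (wne hg' (Or.inr (Or.inl rfl))).2
    · have := hG.winj hg' hb (Or.inr (Or.inl rfl)) h1.symm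
      subst this
      exact dep_line (line_add hg' hd'').2.1 (by simp) (by simp) (by simp)
  · rw [add_zero, sub_zero] at h
    exact absurd h (mono_ne_zero (wne hg (Or.inl rfl)).1)
  · exfalso
    rw [sub_zero] at h
    obtain ⟨h2, -⟩ := duo (wne hg (Or.inl rfl)).1 h
    have h3 := hG.lt hg'' ha
    have h4 := Mle M g
    omega
  · exfalso
    rw [sub_zero] at h
    obtain ⟨h2, h1⟩ := duo (wne hg (Or.inl rfl)).1 h
    have := expM_inj (Mpos hG hg) h2
    subst this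
    have := hg.eq hg''
    subst this
    rw [hG.add hg hd] at h1
    exact (wne hg (Or.inr (Or.inr rfl))).1 h1
  · rw [add_zero, sub_eq_zero] at h
    obtain ⟨h1, h2⟩ := mono_eq (wne hg (Or.inl rfl)).1 h
    have := expM_inj (Mpos hG hg) h2
    subst this
    have := hg.eq hg'
    subst this
    rcases hc with ⟨rfl, rfl⟩ | ⟨b, hb, rfl, rfl⟩
    · exact absurd h1 (wne hg (Or.inl rfl)).2
    · have := hG.winj hg hb (Or.inl rfl) h1.symm
      subst this
      exact dep_line (line_add hg hd).1 (by simp) (by simp) (by simp)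
  · exfalso
    obtain ⟨h2, -, -⟩ := tri (wne hg (Or.inl rfl)).1 (q_ne' hG hg'' ha hc'') (q_ne hG hg' hc) h
    have h3 := hG.lt hg'' ha
    have h4 := Mle M g
    omega
  · obtain ⟨h2, h3, h1⟩ := tri (wne hg (Or.inl rfl)).1 (wne hg'' (Or.inr (Or.inl rfl))).1
      (q_ne hG hg' hc) h
    have := expM_inj (Mpos hG hg) h2
    subst this
    have := expM_inj (Mpos hG hg) h3
    subst this
    have := hg.eq hg'
    subst this
    have := hg.eq hg''
    subst this
    rw [hG.add hg hd] at h1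
    rcases hc with ⟨rfl, rfl⟩ | ⟨b, hb, rfl, rfl⟩
    · exact absurd h1 (wne hg (Or.inr (Or.inr rfl))).2
    · have := hG.winj hg hb (Or.inr (Or.inr rfl)) h1.symm
      subst this
      exact dep_line (line_add hg hd).2.2 (by simp) (by simp) (by simp)


end Generic2

/-! ### from Generic3 -/

section Generic3

variable {kk : Type} [Field kk] {G : List Gad} {w : ℕ → kk} {M : ℕ}

theorem dep_P {a b c : Lab} (ha : onP a = true) (hb : onP b = true) (hc : onP c = true) :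
    Dep G a b c := Or.inr (Or.inl ⟨ha, hb, hc⟩)

theorem dep_Q {a b c : Lab} (ha : onQ a = true) (hb : onQ b = true) (hc : onQ c = true) :
    Dep G a b c := Or.inr (Or.inr (Or.inl ⟨ha, hb, hc⟩))

theorem dep_R {a b c : Lab} (ha : onR a = true) (hb : onR b = true) (hc : onR c = true) :
    Dep G a b c := Or.inr (Or.inr (Or.inr (Or.inl ⟨ha, hb, hc⟩)))

theorem dep_S {a b c : Lab} (ha : onS a = true) (hb : onS b = true) (hc : onS c = true) :
    Dep G a b c := Or.inr (Or.inr (Or.inr (Or.inr (Or.inl ⟨ha, hb, hc⟩))))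

/-- equal parameters -/
theorem dep12 (hG : Good G w M) {l₁ l₂ : Lab} (l₃ : Lab) (h₁ : Occ G l₁) (h₂ : Occ G l₂)
    (ht : ty l₁ = ty l₂) (hY : ty l₁ ≠ .Y) (h : mv w M l₁ = mv w M l₂) : Dep G l₁ l₂ l₃ :=
  Or.inl (Or.inl (mv_inj hG h₁ h₂ ht hY h))

theorem dep23 (hG : Good G w M) (l₁ : Lab) {l₂ l₃ : Lab} (h₂ : Occ G l₂) (h₃ : Occ G l₃)
    (ht : ty l₂ = ty l₃) (hY : ty l₂ ≠ .Y) (h : mv w M l₂ = mv w M l₃) : Dep G l₁ l₂ l₃ :=
  Or.inl (Or.inr (Or.inr (mv_inj hG h₂ h₃ ht hY h)))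

theorem coreP (hG : Good G w M) {l₁ l₂ l₃ : Lab} (h₁ : Occ G l₁) (h₂ : Occ G l₂)
    (h₃ : Occ G l₃) (t₁ : ty l₁ = .P) (r23 : (ty l₂).rk ≤ (ty l₃).rk)
    (h : dt (vec w M l₁) (vec w M l₂) (vec w M l₃) = 0) : Dep G l₁ l₂ l₃ := by
  unfold vec at h
  rcases t₂ : ty l₂ with _ | _ | _ | _ | _ <;> rcases t₃ : ty l₃ with _ | _ | _ | _ | _ <;>
    rw [t₂, t₃] at r23 <;> rw [t₁, t₂, t₃] at h
  · exact dep_P (onP_of h₁ t₁) (onP_of h₂ t₂) (onP_of h₃ t₃)
  · rw [dPPQ, sub_eq_zero] at h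
    exact dep12 hG _ h₁ h₂ (t₁.trans t₂.symm) (by rw [t₁]; decide) h
  · rw [dPPR, sub_eq_zero] at h
    exact dep12 hG _ h₁ h₂ (t₁.trans t₂.symm) (by rw [t₁]; decide) h
  · rw [dPPS] at h
    rcases mul_eq_zero.1 h with h | h
    · exact dep12 hG _ h₁ h₂ (t₁.trans t₂.symm) (by rw [t₁]; decide) (sub_eq_zero.1 h)
    · exact absurd h (S_facts hG h₃ t₃).2
  · have := eqY_of h₃ t₃
    subst this
    exact dep_P (onP_of h₁ t₁) (onP_of h₂ t₂) rfl
  · exact absurd r23 (by decide)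
  · rw [dPQQ, sub_eq_zero] at h
    exact dep23 hG _ h₂ h₃ (t₂.trans t₃.symm) (by rw [t₂]; decide) h.symm
  · rw [dPQR] at h
    exact casePQR hG h₁ h₂ h₃ t₁ t₂ t₃ h
  · rw [dPQS] at h
    exact casePQS hG h₁ h₂ h₃ t₁ t₂ t₃ h
  · rw [dPQY] at h
    exact absurd h one_ne_zero
  · exact absurd r23 (by decide)
  · exact absurd r23 (by decide)
  · rw [dPRR, sub_eq_zero] at h
    exact dep23 hG _ h₂ h₃ (t₂.trans t₃.symm) (by rw [t₂]; decide) h.symm
  · rw [dPRS] at h
    exact casePRS hG h₁ h₂ h₃ t₁ t₂ t₃ h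
  · rw [dPRY] at h
    exact absurd h one_ne_zero
  · exact absurd r23 (by decide)
  · exact absurd r23 (by decide)
  · exact absurd r23 (by decide)
  · rw [dPSS] at h
    rcases mul_eq_zero.1 h with h | h
    · have := caseP0 hG h₁ t₁ h
      subst this
      exact dep_S rfl (onS_of h₂ t₂) (onS_of h₃ t₃)
    · exact dep23 hG _ h₂ h₃ (t₂.trans t₃.symm) (by rw [t₂]; decide) (sub_eq_zero.1 h)
  · rw [dPSY] at h
    exact absurd h (S_facts hG h₂ t₂).2
  · exact absurd r23 (by decide)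
  · exact absurd r23 (by decide)
  · exact absurd r23 (by decide)
  · exact absurd r23 (by decide)
  · exact Or.inl (Or.inr (Or.inr ((eqY_of h₂ t₂).trans (eqY_of h₃ t₃).symm)))

theorem coreQ (hG : Good G w M) {l₁ l₂ l₃ : Lab} (h₁ : Occ G l₁) (h₂ : Occ G l₂)
    (h₃ : Occ G l₃) (t₁ : ty l₁ = .Q) (r12 : (ty l₁).rk ≤ (ty l₂).rk)
    (r23 : (ty l₂).rk ≤ (ty l₃).rk)
    (h : dt (vec w M l₁) (vec w M l₂) (vec w M l₃) = 0) : Dep G l₁ l₂ l₃ := by
  unfold vec at h
  rw [t₁] at r12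
  rcases t₂ : ty l₂ with _ | _ | _ | _ | _
  · rw [t₂] at r12
    exact absurd r12 (by decide)
  all_goals
    rcases t₃ : ty l₃ with _ | _ | _ | _ | _ <;>
    rw [t₂, t₃] at r23 <;> rw [t₁, t₂, t₃] at h
  · exact absurd r23 (by decide)
  · exact dep_Q (onQ_of h₁ t₁) (onQ_of h₂ t₂) (onQ_of h₃ t₃)
  · rw [dQQR, sub_eq_zero] at h
    exact dep12 hG _ h₁ h₂ (t₁.trans t₂.symm) (by rw [t₁]; decide) h
  · rw [dQQS] at h
    rcases mul_eq_zero.1 h with h | h
    · exact dep12 hG _ h₁ h₂ (t₁.trans t₂.symm) (by rw [t₁]; decide) (sub_eq_zero.1 h).symm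
    · exact absurd h (S_facts hG h₃ t₃).1
  · have := eqY_of h₃ t₃
    subst this
    exact dep_Q (onQ_of h₁ t₁) (onQ_of h₂ t₂) rfl
  · exact absurd r23 (by decide)
  · exact absurd r23 (by decide)
  · rw [dQRR, sub_eq_zero] at h
    exact dep23 hG _ h₂ h₃ (t₂.trans t₃.symm) (by rw [t₂]; decide) h.symm
  · rw [dQRS] at h
    exact caseQRS hG h₁ h₂ h₃ t₁ t₂ t₃ h
  · rw [dQRY] at h
    exact absurd h one_ne_zero
  · exact absurd r23 (by decide)
  · exact absurd r23 (by decide)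
  · exact absurd r23 (by decide)
  · rw [dQSS] at h
    rcases mul_eq_zero.1 h with h | h
    · have := caseQ0 hG h₁ t₁ h
      subst this
      exact dep_S rfl (onS_of h₂ t₂) (onS_of h₃ t₃)
    · exact dep23 hG _ h₂ h₃ (t₂.trans t₃.symm) (by rw [t₂]; decide) (sub_eq_zero.1 h)
  · rw [dQSY, neg_eq_zero] at h
    exact absurd h (S_facts hG h₂ t₂).1
  · exact absurd r23 (by decide)
  · exact absurd r23 (by decide)
  · exact absurd r23 (by decide)
  · exact absurd r23 (by decide)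
  · exact Or.inl (Or.inr (Or.inr ((eqY_of h₂ t₂).trans (eqY_of h₃ t₃).symm)))

theorem coreR (hG : Good G w M) {l₁ l₂ l₃ : Lab} (h₁ : Occ G l₁) (h₂ : Occ G l₂)
    (h₃ : Occ G l₃) (t₁ : ty l₁ = .R) (r12 : (ty l₁).rk ≤ (ty l₂).rk)
    (r23 : (ty l₂).rk ≤ (ty l₃).rk)
    (h : dt (vec w M l₁) (vec w M l₂) (vec w M l₃) = 0) : Dep G l₁ l₂ l₃ := by
  unfold vec at h
  rw [t₁] at r12
  rcases t₂ : ty l₂ with _ | _ | _ | _ | _
  · rw [t₂] at r12
    exact absurd r12 (by decide)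
  · rw [t₂] at r12
    exact absurd r12 (by decide)
  all_goals
    rcases t₃ : ty l₃ with _ | _ | _ | _ | _ <;>
    rw [t₂, t₃] at r23 <;> rw [t₁, t₂, t₃] at h
  · exact absurd r23 (by decide)
  · exact absurd r23 (by decide)
  · exact dep_R (onR_of h₁ t₁) (onR_of h₂ t₂) (onR_of h₃ t₃)
  · rw [dRRS, sub_eq_zero] at h
    exact dep12 hG _ h₁ h₂ (t₁.trans t₂.symm) (by rw [t₁]; decide) h.symm
  · have := eqY_of h₃ t₃
    subst this
    exact dep_R (onR_of h₁ t₁) (onR_of h₂ t₂) rfl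
  · exact absurd r23 (by decide)
  · exact absurd r23 (by decide)
  · exact absurd r23 (by decide)
  · rw [dRSS] at h
    rcases mul_eq_zero.1 h with h | h
    · have := caseR0 hG h₁ t₁ h
      subst this
      exact dep_S rfl (onS_of h₂ t₂) (onS_of h₃ t₃)
    · exact dep23 hG _ h₂ h₃ (t₂.trans t₃.symm) (by rw [t₂]; decide) (sub_eq_zero.1 h)
  · rw [dRSY, neg_eq_zero] at h
    exact absurd h one_ne_zero
  · exact absurd r23 (by decide)
  · exact absurd r23 (by decide)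
  · exact absurd r23 (by decide)
  · exact absurd r23 (by decide)
  · exact Or.inl (Or.inr (Or.inr ((eqY_of h₂ t₂).trans (eqY_of h₃ t₃).symm)))

theorem coreS (hG : Good G w M) {l₁ l₂ l₃ : Lab} (h₁ : Occ G l₁) (h₂ : Occ G l₂)
    (h₃ : Occ G l₃) (t₁ : ty l₁ = .S) (r12 : (ty l₁).rk ≤ (ty l₂).rk)
    (r23 : (ty l₂).rk ≤ (ty l₃).rk)
    (h : dt (vec w M l₁) (vec w M l₂) (vec w M l₃) = 0) : Dep G l₁ l₂ l₃ := by
  unfold vec at h
  rw [t₁] at r12
  rcases t₂ : ty l₂ with _ | _ | _ | _ | _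
  · rw [t₂] at r12
    exact absurd r12 (by decide)
  · rw [t₂] at r12
    exact absurd r12 (by decide)
  · rw [t₂] at r12
    exact absurd r12 (by decide)
  all_goals
    rcases t₃ : ty l₃ with _ | _ | _ | _ | _ <;>
    rw [t₂, t₃] at r23 <;> rw [t₁, t₂, t₃] at h
  · exact absurd r23 (by decide)
  · exact absurd r23 (by decide)
  · exact absurd r23 (by decide)
  · exact dep_S (onS_of h₁ t₁) (onS_of h₂ t₂) (onS_of h₃ t₃)
  · rw [dSSY, sub_eq_zero] at h
    exact dep12 hG _ h₁ h₂ (t₁.trans t₂.symm) (by rw [t₁]; decide) h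
  · exact absurd r23 (by decide)
  · exact absurd r23 (by decide)
  · exact absurd r23 (by decide)
  · exact absurd r23 (by decide)
  · exact Or.inl (Or.inr (Or.inr ((eqY_of h₂ t₂).trans (eqY_of h₃ t₃).symm)))

theorem core_sorted (hG : Good G w M) {l₁ l₂ l₃ : Lab} (h₁ : Occ G l₁) (h₂ : Occ G l₂)
    (h₃ : Occ G l₃) (r12 : (ty l₁).rk ≤ (ty l₂).rk) (r23 : (ty l₂).rk ≤ (ty l₃).rk)
    (h : dt (vec w M l₁) (vec w M l₂) (vec w M l₃) = 0) : Dep G l₁ l₂ l₃ := by
  rcases t₁ : ty l₁ with _ | _ | _ | _ | _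
  · exact coreP hG h₁ h₂ h₃ t₁ r23 h
  · exact coreQ hG h₁ h₂ h₃ t₁ r12 r23 h
  · exact coreR hG h₁ h₂ h₃ t₁ r12 r23 h
  · exact coreS hG h₁ h₂ h₃ t₁ r12 r23 h
  · have t₂ : ty l₂ = .Y := by
      rw [t₁] at r12
      rcases t₂ : ty l₂ with _ | _ | _ | _ | _ <;> rw [t₂] at r12 <;>
        first | rfl | exact absurd r12 (by decide)
    exact Or.inl (Or.inl ((eqY_of h₁ t₁).trans (eqY_of h₂ t₂).symm))

/-- vanishing of the determinant implies dependence -/
theorem dep_of_dt (hG : Good G w M) {l₁ l₂ l₃ : Lab} (h₁ : Occ G l₁) (h₂ : Occ G l₂)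
    (h₃ : Occ G l₃) (h : dt (vec w M l₁) (vec w M l₂) (vec w M l₃) = 0) : Dep G l₁ l₂ l₃ := by
  have s12 : ∀ {a b c : Lab}, dt (vec w M a) (vec w M b) (vec w M c) = 0 →
      dt (vec w M b) (vec w M a) (vec w M c) = 0 := by
    intro a b c h
    rw [dt_swap12, h, neg_zero]
  have s23 : ∀ {a b c : Lab}, dt (vec w M a) (vec w M b) (vec w M c) = 0 →
      dt (vec w M a) (vec w M c) (vec w M b) = 0 := by
    intro a b c h
    rw [dt_swap23, h, neg_zero]
  rcases le_total (ty l₁).rk (ty l₂).rk with h12 | h12 <;>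
    rcases le_total (ty l₂).rk (ty l₃).rk with h23 | h23 <;>
    rcases le_total (ty l₁).rk (ty l₃).rk with h13 | h13
  · exact core_sorted hG h₁ h₂ h₃ h12 h23 h
  · exact core_sorted hG h₁ h₂ h₃ h12 h23 h
  · exact (core_sorted hG h₁ h₃ h₂ h13 h23 (s23 h)).swap23
  · exact (core_sorted hG h₃ h₁ h₂ h13 h12 (s12 (s23 h))).swap12.swap23
  · exact (core_sorted hG h₂ h₁ h₃ h12 h13 (s12 h)).swap12
  · exact (core_sorted hG h₂ h₃ h₁ h23 h13 (s23 (s12 h))).swap23.swap12
  · exact (core_sorted hG h₃ h₂ h₁ h23 h12 (s12 (s23 (s12 h)))).swap12.swap23.swap12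
  · exact (core_sorted hG h₃ h₂ h₁ h23 h12 (s12 (s23 (s12 h)))).swap12.swap23.swap12


end Generic3

/-! ### from Generic4 -/

section Generic4

theorem dRSQ {R : Type} [CommRing R] (a b c : R) :
    dt (vecT .R a) (vecT .S b) (vecT .Q c) = a * b - c := by
  simp only [dt, vecT, Matrix.cons_val]
  ring

theorem dPRQ {R : Type} [CommRing R] (a b c : R) :
    dt (vecT .P a) (vecT .R b) (vecT .Q c) = -(a + b - c) := by
  simp only [dt, vecT, Matrix.cons_val]
  ring

variable {kk : Type} [Field kk] {G : List Gad} {w : ℕ → kk} {M : ℕ}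

theorem vec_onP {l : Lab} (h : Occ G l) (ht : onP l = true) : vec w M l 0 = 0 := by
  cases h <;> first | rfl | simp [onP, pY, pO, pE, pX, pu, pr, pU, pV, pK, pA, pN, pH] at ht

theorem vec_onQ {l : Lab} (h : Occ G l) (ht : onQ l = true) : vec w M l 0 = vec w M l 2 := by
  cases h <;> first | rfl | simp [onQ, pY, pO, pE, pX, pu, pr, pU, pV, pK, pA, pN, pH] at ht

theorem vec_onR {l : Lab} (h : Occ G l) (ht : onR l = true) : vec w M l 2 = 0 := by
  cases h <;> first | rfl | simp [onR, pY, pO, pE, pX, pu, pr, pU, pV, pK, pA, pN, pH] at ht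

theorem vec_onS {l : Lab} (h : Occ G l) (ht : onS l = true) : vec w M l 1 = 0 := by
  cases h with
  | O => simp [vec, vecT, ty, mv, co, pO]
  | E => simp [vec, vecT, ty, mv, co, pE]
  | X => simp [vec, vecT, ty, mv, co, pX]
  | _ =>
    first
      | rfl
      | simp [onS, pY, pO, pE, pX, pu, pr, pU, pV, pK, pA, pN, pH] at ht

theorem dt_u (hG : Good G w M) {g : ℕ} {d : Gad} {a : ℕ} (h : At G g d) (ha : Wr d a) :
    dt (vec w M (pu a)) (vec w M (pK g a)) (vec w M (pU g)) = 0 := by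
  have h1 := hG.lt h ha
  have h2 := Mle M g
  have e : vec w M (pu a) = vecT .R (C 1 * X ^ (a + 1)) := rfl
  have f : vec w M (pK g a) = vecT .S (C 1 * X ^ (M * (g + 1) - (a + 1))) := rfl
  have k : vec w M (pU g) = vecT .Q (C 1 * X ^ (M * (g + 1))) := rfl
  rw [e, f, k, dRSQ, sub_eq_zero, show C (1 : kk) * X ^ (a + 1) * (C 1 * X ^ (M * (g + 1) - (a + 1))) =
    C 1 * X ^ ((a + 1) + (M * (g + 1) - (a + 1))) by rw [pow_add, C_1]; ring,
    show (a + 1) + (M * (g + 1) - (a + 1)) = M * (g + 1) by omega]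

theorem dt_r (hG : Good G w M) {g : ℕ} {d : Gad} {a : ℕ} (h : At G g d) (ha : Wr d a) :
    dt (vec w M (pr a)) (vec w M (pK g a)) (vec w M (pV g a)) = 0 := by
  have h1 := hG.lt h ha
  have h2 := Mle M g
  have e : vec w M (pr a) = vecT .R (C (w a) * X ^ (a + 1)) := rfl
  have f : vec w M (pK g a) = vecT .S (C 1 * X ^ (M * (g + 1) - (a + 1))) := rfl
  have k : vec w M (pV g a) = vecT .Q (C (w a) * X ^ (M * (g + 1))) := rfl
  rw [e, f, k, dRSQ, sub_eq_zero,
    show C (w a) * X ^ (a + 1) * (C 1 * X ^ (M * (g + 1) - (a + 1))) =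
    C (w a) * X ^ ((a + 1) + (M * (g + 1) - (a + 1))) by rw [pow_add, C_1]; ring,
    show (a + 1) + (M * (g + 1) - (a + 1)) = M * (g + 1) by omega]

theorem dt_mul (hG : Good G w M) {g : ℕ} {d : Gad} (h : At G g d) (hd : d.1 = true) :
    dt (vec w M (pu d.2.2.1)) (vec w M (pH g d.2.1 d.2.2.1)) (vec w M (pV g d.2.1)) = 0 ∧
    dt (vec w M (pr d.2.2.1)) (vec w M (pH g d.2.1 d.2.2.1)) (vec w M (pV g d.2.2.2)) = 0 := by
  have h1 := hG.lt h (Or.inr (Or.inl rfl))
  have h2 := Mle M g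
  have h3 := hG.mul h hd
  have e : vec w M (pu d.2.2.1) = vecT .R (C 1 * X ^ (d.2.2.1 + 1)) := rfl
  have e' : vec w M (pr d.2.2.1) = vecT .R (C (w d.2.2.1) * X ^ (d.2.2.1 + 1)) := rfl
  have f : vec w M (pH g d.2.1 d.2.2.1) =
    vecT .S (C (w d.2.1) * X ^ (M * (g + 1) - (d.2.2.1 + 1))) := rfl
  have k : vec w M (pV g d.2.1) = vecT .Q (C (w d.2.1) * X ^ (M * (g + 1))) := rfl
  have k' : vec w M (pV g d.2.2.2) = vecT .Q (C (w d.2.2.2) * X ^ (M * (g + 1))) := rfl
  constructor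
  · rw [e, f, k, dRSQ, sub_eq_zero,
      show C (1 : kk) * X ^ (d.2.2.1 + 1) * (C (w d.2.1) * X ^ (M * (g + 1) - (d.2.2.1 + 1))) =
      C (w d.2.1) * X ^ ((d.2.2.1 + 1) + (M * (g + 1) - (d.2.2.1 + 1))) by rw [pow_add, C_1]; ring,
      show (d.2.2.1 + 1) + (M * (g + 1) - (d.2.2.1 + 1)) = M * (g + 1) by omega]
  · rw [e', f, k', dRSQ, sub_eq_zero,
      show C (w d.2.2.1) * X ^ (d.2.2.1 + 1) *
        (C (w d.2.1) * X ^ (M * (g + 1) - (d.2.2.1 + 1))) =
      (C (w d.2.1) * C (w d.2.2.1)) * X ^ ((d.2.2.1 + 1) + (M * (g + 1) - (d.2.2.1 + 1))) by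
        rw [pow_add]; ring,
      show (d.2.2.1 + 1) + (M * (g + 1) - (d.2.2.1 + 1)) = M * (g + 1) by omega, ← C_mul, h3]

theorem dt_add (hG : Good G w M) {g : ℕ} {d : Gad} (h : At G g d) (hd : d.1 = false) :
    dt (vec w M (pA g d.2.1)) (vec w M (pV g d.2.1)) (vec w M pX) = 0 ∧
    dt (vec w M pO) (vec w M (pN g d.2.2.1)) (vec w M (pV g d.2.2.1)) = 0 ∧
    dt (vec w M (pA g d.2.1)) (vec w M (pN g d.2.2.1)) (vec w M (pV g d.2.2.2)) = 0 := by
  have h3 := hG.add h hd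
  have e : vec w M (pA g d.2.1) = vecT .P (C (w d.2.1) * X ^ (M * (g + 1))) := rfl
  have k1 : vec w M (pV g d.2.1) = vecT .Q (C (w d.2.1) * X ^ (M * (g + 1))) := rfl
  have k2 : vec w M (pV g d.2.2.1) = vecT .Q (C (w d.2.2.1) * X ^ (M * (g + 1))) := rfl
  have k3 : vec w M (pV g d.2.2.2) = vecT .Q (C (w d.2.2.2) * X ^ (M * (g + 1))) := rfl
  have x : vec w M pX = vecT .R (C 0 * X ^ 0) := rfl
  have o : vec w M pO = vecT .P (C 0 * X ^ 0) := rfl
  have n : vec w M (pN g d.2.2.1) = vecT .R (C (w d.2.2.1) * X ^ (M * (g + 1))) := rfl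
  refine ⟨?_, ?_, ?_⟩
  · rw [e, k1, x, dPQR, C_0]
    ring
  · rw [o, n, k2, dPRQ, C_0]
    ring
  · rw [e, n, k3, dPRQ, ← h3, C_add]
    ring

/-- dependence implies the vanishing of the determinant -/
theorem dt_of_dep (hG : Good G w M) {l₁ l₂ l₃ : Lab} (h₁ : Occ G l₁) (h₂ : Occ G l₂)
    (h₃ : Occ G l₃) (h : Dep G l₁ l₂ l₃) : dt (vec w M l₁) (vec w M l₂) (vec w M l₃) = 0 := by
  rcases h with (h | h | h) | ⟨a1, a2, a3⟩ | ⟨a1, a2, a3⟩ | ⟨a1, a2, a3⟩ | ⟨a1, a2, a3⟩ |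
    ⟨L, hL, a1, a2, a3⟩
  · subst h; unfold dt; ring
  · subst h; unfold dt; ring
  · subst h; unfold dt; ring
  · unfold dt
    rw [vec_onP h₁ a1, vec_onP h₂ a2, vec_onP h₃ a3]
    ring
  · unfold dt
    rw [vec_onQ h₁ a1, vec_onQ h₂ a2, vec_onQ h₃ a3]
    ring
  · unfold dt
    rw [vec_onR h₁ a1, vec_onR h₂ a2, vec_onR h₃ a3]
    ring
  · unfold dt
    rw [vec_onS h₁ a1, vec_onS h₂ a2, vec_onS h₃ a3]
    ring
  · unfold lines at hL
    rw [List.mem_flatMap] at hL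
    obtain ⟨⟨d, g⟩, hq, hL⟩ := hL
    have hat : At G g d := mem_zipIdx_iff.1 hq
    simp only [glines] at hL
    rw [List.mem_append] at hL
    rcases hL with hL | hL
    · simp only [List.mem_cons, List.not_mem_nil, or_false] at hL
      rcases hL with rfl | rfl | rfl | rfl | rfl | rfl
      · exact dt_mem3 _ (dt_u hG hat (Or.inl rfl)) a1 a2 a3
      · exact dt_mem3 _ (dt_r hG hat (Or.inl rfl)) a1 a2 a3
      · exact dt_mem3 _ (dt_u hG hat (Or.inr (Or.inl rfl))) a1 a2 a3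
      · exact dt_mem3 _ (dt_r hG hat (Or.inr (Or.inl rfl))) a1 a2 a3
      · exact dt_mem3 _ (dt_u hG hat (Or.inr (Or.inr rfl))) a1 a2 a3
      · exact dt_mem3 _ (dt_r hG hat (Or.inr (Or.inr rfl))) a1 a2 a3
    · split_ifs at hL with hd
      · simp only [List.mem_cons, List.not_mem_nil, or_false] at hL
        rcases hL with rfl | rfl
        · exact dt_mem3 _ (dt_mul hG hat hd).1 a1 a2 a3
        · exact dt_mem3 _ (dt_mul hG hat hd).2 a1 a2 a3
      · have hd' : d.1 = false := by simpa using hd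
        simp only [List.mem_cons, List.not_mem_nil, or_false] at hL
        rcases hL with rfl | rfl | rfl
        · exact dt_mem3 _ (dt_add hG hat hd').1 a1 a2 a3
        · exact dt_mem3 _ (dt_add hG hat hd').2.1 a1 a2 a3
        · exact dt_mem3 _ (dt_add hG hat hd').2.2 a1 a2 a3

/-- a bound for the numbers of the wires -/
theorem exists_big (G : List Gad) : ∃ M : ℕ, ∀ d ∈ G, ∀ a, Wr d a → a + 1 < M := by
  induction G with
  | nil => exact ⟨0, by simp⟩
  | cons d G ih =>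
    obtain ⟨M, hM⟩ := ih
    refine ⟨M + (d.2.1 + d.2.2.1 + d.2.2.2) + 2, ?_⟩
    intro e he a ha
    rcases List.mem_cons.1 he with rfl | he
    · rcases ha with rfl | rfl | rfl <;> omega
    · have := hM e he a ha
      omega

/-- a point where finitely many non-zero polynomials do not vanish -/
theorem exists_point {kk : Type} [Field kk] [CharZero kk] (L : List kk[X]) (hL : ∀ q ∈ L, q ≠ 0) :
    ∃ B : kk, ∀ q ∈ L, q.eval B ≠ 0 := by
  have key : ∃ p : kk[X], p ≠ 0 ∧ ∀ B : kk, p.eval B ≠ 0 → ∀ q ∈ L, q.eval B ≠ 0 := by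
    induction L with
    | nil => exact ⟨1, one_ne_zero, by simp⟩
    | cons q L ih =>
      obtain ⟨p, hp, h⟩ := ih (fun q' hq' => hL q' (List.mem_cons_of_mem _ hq'))
      refine ⟨q * p, mul_ne_zero (hL q List.mem_cons_self) hp, ?_⟩
      intro B hB q' hq'
      rw [eval_mul] at hB
      rcases List.mem_cons.1 hq' with rfl | hq'
      · exact left_ne_zero_of_mul hB
      · exact h B (right_ne_zero_of_mul hB) q' hq'
  obtain ⟨p, hp, h⟩ := key
  by_contra hcon
  push Not at hcon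
  apply hp
  apply Polynomial.funext
  intro B
  rw [eval_zero]
  by_contra hB
  obtain ⟨q, hq, hq0⟩ := hcon B
  exact h B hB q hq hq0


end Generic4

end Gen

open Gen Polynomial in
/-- a solvable system has a plane configuration in general position. -/
theorem t_B : S_B := by
  classical
  intro kk _ _ G _ h
  obtain ⟨w, hw⟩ := h
  obtain ⟨M, hM⟩ := exists_big G
  have hG : Good G w M := ⟨hw, hM⟩
  let T : List (Lab × Lab × Lab) := (labs G) ×ˢ ((labs G) ×ˢ (labs G))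
  let Ls : List kk[X] := (T.map (fun t => dt (vec w M t.1) (vec w M t.2.1) (vec w M t.2.2))).filter
    (fun q => decide (q ≠ 0))
  obtain ⟨B, hB⟩ := exists_point Ls (by
    intro q hq
    have := (List.mem_filter.1 hq).2
    simpa using this)
  refine ⟨fun l i => (vec w M l i).eval B, ?_⟩
  intro l₁ h₁ l₂ h₂ l₃ h₃
  have hdet : det3K (fun i => (vec w M l₁ i).eval B) (fun i => (vec w M l₂ i).eval B)
      (fun i => (vec w M l₃ i).eval B) = (dt (vec w M l₁) (vec w M l₂) (vec w M l₃)).eval B := by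
    unfold det3K dt
    simp only [eval_add, eval_sub, eval_mul]
  rw [hdet, dep_iff]
  constructor
  · intro h0
    apply dep_of_dt hG (occ_of_mem h₁) (occ_of_mem h₂) (occ_of_mem h₃)
    by_contra hne
    refine hB _ ?_ h0
    refine List.mem_filter.2 ⟨List.mem_map.2 ⟨(l₁, l₂, l₃), ?_, rfl⟩, by simpa using hne⟩
    exact List.mem_product.2 ⟨h₁, List.mem_product.2 ⟨h₂, h₃⟩⟩
  · intro hd
    rw [dt_of_dep hG (occ_of_mem h₁) (occ_of_mem h₂) (occ_of_mem h₃) hd, eval_zero]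

end Pool.Agent.W364.LG
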